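import Pool.Agent.Helper96.SE.Stmts2

set_option autoImplicit false

/-! # Marked edges -/

namespace Pool.Agent.Helper96.SE

open Pool.Agent.Helper52.Grid

theorem mrk_h13 (s : List Sub) (M : ℕ) (T : ℕ → Bool) : hN s M T 1 3 = 0 := by
  rw [hN_old (by omega)]
  simp [hC, hT]

theorem mrk_u13 (s : List Sub) (M : ℕ) (T a ch : ℕ → Bool) : hNU s M T a ch 1 3 = true := by
  rw [hNU_old (by omega)]
  simp [hUse, hC, hT]

theorem mrk_rk {M : ℕ} {T : ℕ → Bool} (hT : VT M T) {i : ℕ} (hi : T i = true) :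
    rk T (i + 1) = .L := by
  have h1 := hT.sep i hi
  simp [rk, h1, hi]

theorem mrk_v {s : List Sub} {M : ℕ} {T : ℕ → Bool} (hT : VT M T) {i : ℕ} (hi : T i = true) :
    vN s M T (8 + 4 * s.length) (12 + 6 * i) = 0 := by
  rw [vN_row (i := i + 1) (r := 2) (x := 3) (hT.lt i hi) (by omega) (by omega) (by omega),
    mrk_rk hT hi]
  rfl

theorem mrk_vu {s : List Sub} {M : ℕ} {T : ℕ → Bool} (hT : VT M T) {i : ℕ} (hi : T i = true)
    (a ch : ℕ → Bool) : vNU s M T a ch (8 + 4 * s.length) (12 + 6 * i) = true := by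
  unfold vNU
  rw [if_neg (by omega), mrk_v hT hi, if_pos rfl]

theorem mrk_h {s : List Sub} {M : ℕ} {T : ℕ → Bool} (hT : VT M T) {i : ℕ} (hi : T i = true) :
    hN s M T (14 + 4 * s.length) (13 + 6 * i) = 0 := by
  rw [hN_row (i := i + 1) (r := 3) (x := 9) (hT.lt i hi) (by omega) (by omega) (by omega),
    mrk_rk hT hi]
  rfl

theorem mrk_hu {s : List Sub} {M : ℕ} {T : ℕ → Bool} (hT : VT M T) {i : ℕ} (hi : T i = true)
    (a ch : ℕ → Bool) : hNU s M T a ch (14 + 4 * s.length) (13 + 6 * i) = true := by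
  unfold hNU
  rw [if_neg (by omega), mrk_h hT hi, if_pos rfl]

theorem mrk_mem {s : List Sub} {M : ℕ} {T : ℕ → Bool} {m : Pt × Pt} (hm : m ∈ marks s M T) :
    m = ((1, 3), (2, 3)) ∨ ∃ i, T i = true ∧
      (m = ((8 + 4 * s.length, 12 + 6 * i), (8 + 4 * s.length, 13 + 6 * i)) ∨
        m = ((14 + 4 * s.length, 13 + 6 * i), (15 + 4 * s.length, 13 + 6 * i))) := by
  unfold marks at hm
  rcases Finset.mem_insert.1 hm with h | h
  · exact Or.inl h
  · obtain ⟨i, hi, h⟩ := Finset.mem_biUnion.1 h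
    refine Or.inr ⟨i, (Finset.mem_filter.1 hi).2, ?_⟩
    rcases Finset.mem_insert.1 h with h | h
    · exact Or.inl h
    · exact Or.inr (Finset.mem_singleton.1 h)

theorem st_MRK : ST_MRK := by
  intro s M T hT
  refine ⟨?_, ?_, ?_⟩
  · unfold marks
    have h1 : (((Finset.range (2 * M)).filter fun i => T i = true).biUnion fun i =>
        ({((8 + 4 * s.length, 12 + 6 * i), (8 + 4 * s.length, 13 + 6 * i)),
          ((14 + 4 * s.length, 13 + 6 * i), (15 + 4 * s.length, 13 + 6 * i))} :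
          Finset (Pt × Pt))).card ≤
        ((Finset.range (2 * M)).filter fun i => T i = true).card * 2 :=
      Finset.card_biUnion_le_card_mul _ _ _ fun i _ => Finset.card_le_two
    have h2 := Finset.card_filter_le (Finset.range (2 * M)) (fun i => T i = true)
    rw [Finset.card_range] at h2
    refine (Finset.card_insert_le _ _).trans ?_
    omega
  · intro m hm
    rcases mrk_mem hm with rfl | ⟨i, hi, rfl | rfl⟩
    · exact ⟨Or.inl (mrk_h13 s M T), Or.inr (Or.inl (mrk_h13 s M T)),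
        Or.inl ⟨rfl, fun a ch => mrk_u13 s M T a ch⟩⟩
    · refine ⟨Or.inr (Or.inr (Or.inl (mrk_v hT hi))), Or.inr (Or.inr (Or.inr ?_)),
        Or.inr ⟨?_, fun a ch => mrk_vu hT hi a ch⟩⟩
      · have : 13 + 6 * i - 1 = 12 + 6 * i := by omega
        show vN s M T (8 + 4 * s.length) (13 + 6 * i - 1) = 0
        rw [this]
        exact mrk_v hT hi
      · show ((8 + 4 * s.length, 13 + 6 * i) : Pt) = (8 + 4 * s.length, 12 + 6 * i + 1)
        rw [Prod.mk.injEq]
        omega
    · refine ⟨Or.inl (mrk_h hT hi), Or.inr (Or.inl ?_), Or.inl ⟨?_, fun a ch => mrk_hu hT hi a ch⟩⟩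
      · have : 15 + 4 * s.length - 1 = 14 + 4 * s.length := by omega
        show hN s M T (15 + 4 * s.length - 1) (13 + 6 * i) = 0
        rw [this]
        exact mrk_h hT hi
      · show ((15 + 4 * s.length, 13 + 6 * i) : Pt) = (14 + 4 * s.length + 1, 13 + 6 * i)
        rw [Prod.mk.injEq]
        omega
  · intro m hm m' hm' h
    rcases mrk_mem hm with rfl | ⟨i, hi, rfl | rfl⟩ <;>
      rcases mrk_mem hm' with rfl | ⟨j, hj, rfl | rfl⟩ <;>
      simp only [Prod.ext_iff, true_and] at h ⊢ <;> omega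

end Pool.Agent.Helper96.SE
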